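import Pool.Agent.H84.ND.Targets2
import Pool.Agent.H78.SM.BAS

/-!
# BAN: the data of a connection at a node, for a branch of the curve (MP_70ba79_ag)
-/

set_option autoImplicit false

namespace Pool.Agent.H18.ND

open MvPolynomial SC Pool.Agent.H27.LV Pool.Agent.H84.SM Pool.Agent.H78.SM.S
open Pool.Agent.H84.ND
open Pool.Agent.H92.OD (HS cf sg uu Lat geO IsO DF DD cf_mul_low cf_add geO_add geO_mul cf_sg
  sg_mul_sg sg_zero_one algebraMap_HS cf_sum hs_ext geO_sg DF_uu exists_IsO)

theorem pf_BAN (hCGE : T_CGE) (hCPC : T_CPC) (hAFE : T_AFE) : Pool.Agent.H84.ND.T_BAN := by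
  intro k _ _ _ G d α A b hI hC hα u0 u1 u2 hΔ φ hφ1 hφ2 hφ3
  have hpa0 : pa u0 u1 u2 (0 : k) 0 = u0 := by
    funext i
    simp [pa]
  have hu : DD k (uu k) = uu k := DF_uu
  have hcu : cf (uu k) 0 = 0 := by
    show cf (sg 1 (1 : k)) 0 = 0
    rw [cf_sg, if_neg (by norm_num)]
  have hcφ : cf φ 0 = 0 := hφ2 0 (by norm_num)
  have hguu : geO 0 (uu k) := Pool.Agent.H92.OD.geO_mono (geO_sg 1 1) (by norm_num)
  have hgφ : geO 0 φ := Pool.Agent.H92.OD.geO_mono hφ2 (by norm_num)
  have hlu : Lat 1 (uu k) := by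
    have := lat_sg (k := k) 1 1
    rwa [Int.cast_one] at this
  set c : Fin 3 → HS k := pa u0 u1 u2 (uu k) φ with hc
  have hval : ∀ P : MvPolynomial (Fin 3) k, cf (aeval c P) 0 = eval u0 P := by
    intro P
    have h1 := (low_aeval (y := ![uu k, φ]) (by
      intro i
      fin_cases i
      · exact hguu
      · exact hgφ) (gU P u0 u1 u2)).2
    rw [aeval_gU] at h1
    rw [h1]
    have h2 : (fun i => cf (![uu k, φ] i) 0) = ![0, 0] := by
      funext i
      fin_cases i
      · exact hcu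
      · exact hcφ
    rw [h2]
    have := aeval_gU (L := k) P u0 u1 u2 0 0
    rw [hpa0, ae, ae] at this
    exact this
  have hGc : aeval c G = 0 := by
    rw [aeval_gU] at hφ3
    exact hφ3
  -- a form not divisible by `G` does not vanish at `c`
  have key : ∀ (P : MvPolynomial (Fin 3) k) (m : ℕ), P.IsHomogeneous m → P ≠ 0 → m < d →
      aeval c P ≠ 0 := by
    intro P m hP hP0 hmd hPc
    have hGP : ¬ G ∣ P := by
      intro hGP
      have h1 := totalDegree_le_of_dvd_of_isDomain hGP hP0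
      have hG0 : G ≠ 0 := hI.irr.ne_zero
      rw [hI.hom.totalDegree hG0, hP.totalDegree hP0] at h1
      omega
    obtain ⟨z, a, hza⟩ := hCPC k (HS k) G P d m hI.hom hP hI.irr hGP c hGc hPc
    obtain ⟨e1, e2⟩ := cram u0 u1 u2 (uu k) φ z a hza
    have hΔ' : algebraMap k (HS k) (dt u0 u1 u2) ≠ 0 := by
      rw [Ne, map_eq_zero]
      exact hΔ
    have ha1 : algebraMap k (HS k) (dt a u1 u2) ≠ 0 := by
      intro h
      rw [h, mul_zero] at e1
      exact hΔ' e1.symm
    have e3 : uu k = algebraMap k (HS k) (dt u0 a u2 / dt a u1 u2) := by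
      rw [map_div₀, eq_div_iff ha1]
      apply mul_right_cancel₀ hΔ'
      rw [mul_right_comm, ← e2, ← e1]
      ring
    have e4 : cf (uu k) 0 = dt u0 a u2 / dt a u1 u2 := by
      rw [e3, cf_const]
    rw [hcu] at e4
    rw [← e4, map_zero] at e3
    exact uu_ne e3
  have hgr : ∃ l, gr G c l ≠ 0 := by
    have hl : ∃ l, pderiv l G ≠ 0 := by
      by_contra hcon
      push Not at hcon
      have h1 := hI.hom.sum_X_mul_pderiv
      rw [Finset.sum_congr rfl fun i _ => by rw [hcon i, mul_zero], Finset.sum_const_zero] at h1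
      have h2 : (d : MvPolynomial (Fin 3) k) * G = 0 := by
        rw [← nsmul_eq_mul]
        exact h1.symm
      rcases mul_eq_zero.1 h2 with h3 | h3
      · have h4 : d = 0 := by exact_mod_cast h3
        have := hI.two
        omega
      · exact hI.irr.ne_zero h3
    obtain ⟨l, hl⟩ := hl
    refine ⟨l, ?_⟩
    rw [gr]
    have h2 := hI.two
    exact key (pderiv l G) (d - 1) hI.hom.pderiv hl (by omega)
  have heq := hCGE k (HS k) (DD k) G d α A b c hI.hom (by have := hI.two; omega) hC hGc hgr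
  have hafe := hAFE k (HS k) (DD k) α A b u0 u1 u2 c 1 (uu k) φ hC.hA hC.hb hC.inv one_ne_zero
    uu_ne hu (fun i => by rw [one_mul])
  rw [heq, one_pow, one_mul] at hafe
  have hsol := (mul_eq_zero.mp hafe.symm).resolve_left (pow_ne_zero 3 uu_ne)
  have hAc : aeval c A ≠ 0 := key A α hC.hA hC.ne hα
  have haU : aeval ![uu k, φ] (aU A u0 u1 u2) = algebraMap k (HS k) (dt u0 u1 u2) * aeval c A := by
    rw [aU, map_mul, aeval_gU, algHom_C]
  have haU0 : aeval ![uu k, φ] (aU A u0 u1 u2) ≠ 0 := by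
    rw [haU]
    refine mul_ne_zero ?_ hAc
    rw [Ne, map_eq_zero]
    exact hΔ
  obtain ⟨r, hr⟩ := exists_IsO haU0
  have hlow := low_aeval (y := ![uu k, φ]) (by
      intro i
      fin_cases i
      · exact hguu
      · exact hgφ) (aU A u0 u1 u2)
  have hlat := lat_aeval (y := ![uu k, φ]) (by
      intro i
      fin_cases i
      · exact hlu
      · exact hφ1) (aU A u0 u1 u2)
  obtain ⟨m, hm⟩ := hlat r hr.1
  rw [Nat.cast_one, mul_one] at hm
  have hr0 : 0 ≤ r := by
    by_contra hneg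
    exact hr.1 (hlow.1 r (not_le.mp hneg))
  have hm0 : 0 ≤ m := by
    rw [hm] at hr0
    exact_mod_cast hr0
  obtain ⟨a, rfl⟩ := Int.eq_ofNat_of_zero_le hm0
  have hra : r = (a : ℚ) := by
    rw [hm]
    norm_cast
  rw [hra] at hr
  have hcf0 : cf (aeval ![uu k, φ] (aU A u0 u1 u2)) 0 = dt u0 u1 u2 * eval u0 A := by
    have h1 := cf_mul_low (x := algebraMap k (HS k) (dt u0 u1 u2)) (y := aeval c A)
      (r := 0) (s := 0) (geO_sg 0 _) (by
        have := (low_aeval (y := ![uu k, φ]) (by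
          intro i
          fin_cases i
          · exact hguu
          · exact hgφ) (gU A u0 u1 u2)).1
        rw [aeval_gU] at this
        exact this)
    rw [add_zero] at h1
    rw [haU, h1.2, cf_const, hval]
  refine ⟨a, ⟨hφ1, hφ2, ?_, hr⟩, ?_, ?_⟩
  · show aeval ![uu k, φ] (aU A u0 u1 u2) * (sg (-2) 1 * (DF (DF φ) - DF φ)) +
      aeval ![uu k, φ, sg (-1) 1 * DF φ] (bU b u0 u1 u2) = 0
    rw [uu_inv, uu_inv2, ← hsol]
    have e1 : (uu k ^ 2)⁻¹ * (DF (DF φ) - DF φ) = (DD k (DD k φ) - DD k φ) / uu k ^ 2 := by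
      rw [div_eq_mul_inv, mul_comm]
      rfl
    have e2 : (uu k)⁻¹ * DF φ = DD k φ / uu k := by
      rw [div_eq_mul_inv, mul_comm]
      rfl
    rw [e1, e2]
  · intro hA0
    by_contra hne
    have h1 := hr.2 0 (by
      have : 0 < a := Nat.pos_of_ne_zero hne
      exact_mod_cast this)
    rw [hcf0] at h1
    exact mul_ne_zero hΔ hA0 h1
  · intro hA0
    by_contra hlt
    have ha0 : a = 0 := by omega
    subst ha0
    apply hr.1
    rw [Nat.cast_zero, hcf0, hA0, mul_zero]

end Pool.Agent.H18.ND
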