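import Pool.Agent.H92.ND.TargetsB
import Pool.Agent.H78.SM.BMF

/-!
# BMN: the kernel of `bm` for squarefree forms (MP_70ba79_ag)
-/

set_option autoImplicit false

namespace Pool.Agent.H18.ND

open MvPolynomial SC Pool.Agent.H27.LV Pool.Agent.H84.SM Pool.Agent.H84.ND Pool.Agent.H92.ND
open Pool.Agent.H78.SM.B (gA_inj bm_x euler)

namespace M

section

variable {k : Type} [Field k]

theorem gA_ne0 {G : MvPolynomial (Fin 3) k} (hG0 : G ≠ 0) : gA G ≠ 0 := by
  intro h
  apply hG0
  apply gA_inj (k := k)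
  rw [map_zero]
  exact h

theorem gF_ne0 {G : MvPolynomial (Fin 3) k} (hG0 : G ≠ 0) : gF G ≠ 0 := by
  rw [gF]
  intro h
  rw [map_eq_zero_iff _ (IsFractionRing.injective (A2 k) (F2 k))] at h
  exact gA_ne0 hG0 h

theorem bm_f0 [CharZero k] {G : MvPolynomial (Fin 3) k} {d : ℕ} (hd : d ≠ 0) (hS : G.IsHomogeneous d) (hG0 : G ≠ 0) :
    bm G d (fA G) = 0 := by
  have : CharZero (F2 k) := charZero_of_injective_algebraMap (algebraMap k (F2 k)).injective
  have hd' : (d : F2 k) ≠ 0 := Nat.cast_ne_zero.mpr hd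
  have hg := gF_ne0 hG0
  have e1 : ∀ i, bm G d (gr G (xa (k := k)) i * ya i) =
      algebraMap (A2 k) (F2 k) (gr G xa i * ya i) -
        algebraMap (A2 k) (F2 k) (fA G) / ((d : F2 k) * gF G) *
          algebraMap (A2 k) (F2 k) (gr G xa i * xa i) := by
    intro i
    rw [map_mul, gr, bm_x]
    have : bm G d (ya (k := k) i) = pr G d i := by simp [bm, ya]
    rw [this, pr, map_mul, map_mul, map_mul]
    ring
  rw [fA, dp, map_sum]
  simp only [e1]
  rw [Finset.sum_sub_distrib, ← Finset.mul_sum, ← map_sum, ← map_sum, euler hS]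
  change algebraMap (A2 k) (F2 k) (fA G) - algebraMap (A2 k) (F2 k) (fA G) / ((d : F2 k) * gF G) *
    algebraMap (A2 k) (F2 k) ((d : A2 k) * gA G) = 0
  rw [map_mul, map_natCast]
  change _ - _ / ((d : F2 k) * gF G) * ((d : F2 k) * gF G) = 0
  rw [div_mul_cancel₀ _ (mul_ne_zero hd' hg), sub_self]

theorem key0 [CharZero k] {G : MvPolynomial (Fin 3) k} {d : ℕ} (hd : d ≠ 0) (hG0 : G ≠ 0)
    (b : A2 k) : ∃ (r : ℕ) (h : A2 k),
      gF G ^ r * (algebraMap (A2 k) (F2 k) b - bm G d b) =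
        algebraMap (A2 k) (F2 k) (fA G * h) := by
  have : CharZero (F2 k) := charZero_of_injective_algebraMap (algebraMap k (F2 k)).injective
  have hd' : (d : F2 k) ≠ 0 := Nat.cast_ne_zero.mpr hd
  have hdk : (d : k) ≠ 0 := Nat.cast_ne_zero.mpr hd
  have hg := gF_ne0 hG0
  induction b using MvPolynomial.induction_on with
  | C a =>
    refine ⟨0, 0, ?_⟩
    rw [algHom_C, ← algebraMap_eq, ← IsScalarTower.algebraMap_apply]
    simp
  | add p q hp hq =>
    obtain ⟨r, h, e⟩ := hp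
    obtain ⟨r', h', e'⟩ := hq
    refine ⟨r + r', gA G ^ r' * h + gA G ^ r * h', ?_⟩
    have : gF G ^ (r + r') * (algebraMap (A2 k) (F2 k) (p + q) - bm G d (p + q)) =
        gF G ^ r' * (gF G ^ r * (algebraMap (A2 k) (F2 k) p - bm G d p)) +
          gF G ^ r * (gF G ^ r' * (algebraMap (A2 k) (F2 k) q - bm G d q)) := by
      rw [map_add, map_add, pow_add]
      ring
    rw [this, e, e', gF]
    simp only [map_mul, map_add, map_pow]
    ring
  | mul_X p s hp =>
    obtain ⟨r, h, e⟩ := hp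
    have hX : ∃ (r : ℕ) (h : A2 k),
        gF G ^ r * (algebraMap (A2 k) (F2 k) (X s) - bm G d (X s)) =
          algebraMap (A2 k) (F2 k) (fA G * h) := by
      rcases s with i | i
      · refine ⟨0, 0, ?_⟩
        simp [bm, xa]
      · refine ⟨1, C ((d : k)⁻¹) * xa i, ?_⟩
        have e1 : bm G d (X (Sum.inr i)) = pr G d i := by simp [bm]
        have e2 : algebraMap (A2 k) (F2 k) (C ((d : k)⁻¹)) = (d : F2 k)⁻¹ := by
          rw [← algebraMap_eq, ← IsScalarTower.algebraMap_apply, map_inv₀, map_natCast]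
        rw [e1, pr, ya, map_mul, map_mul, map_mul, e2, pow_one, sub_sub_cancel]
        field_simp
    obtain ⟨r', h', e'⟩ := hX
    refine ⟨r + r', gA G ^ r * p * h' + h * (gA G ^ r' * X s - fA G * h'), ?_⟩
    have e3 : gF G ^ r' * bm G d (X s) =
        algebraMap (A2 k) (F2 k) (gA G ^ r' * X s - fA G * h') := by
      have : gF G ^ r' * bm G d (X s) = gF G ^ r' * algebraMap (A2 k) (F2 k) (X s) -
          gF G ^ r' * (algebraMap (A2 k) (F2 k) (X s) - bm G d (X s)) := by ring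
      rw [this, e', gF]
      simp only [map_mul, map_sub, map_pow]
    have : gF G ^ (r + r') * (algebraMap (A2 k) (F2 k) (p * X s) - bm G d (p * X s)) =
        gF G ^ r * algebraMap (A2 k) (F2 k) p *
          (gF G ^ r' * (algebraMap (A2 k) (F2 k) (X s) - bm G d (X s))) +
        gF G ^ r * (algebraMap (A2 k) (F2 k) p - bm G d p) * (gF G ^ r' * bm G d (X s)) := by
      rw [map_mul, map_mul, pow_add]
      ring
    rw [this, e, e', e3, gF]
    simp only [map_mul, map_add, map_sub, map_pow]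
    ring

end

end M

open M

theorem pf_BMN (hFPR : Pool.Agent.H92.ND.T_FPR) : Pool.Agent.H92.ND.T_BMN := by
  intro k _ _ G d hd hG hsq b
  have hd0 : d ≠ 0 := by omega
  have hG0 : G ≠ 0 := hsq.ne_zero
  obtain ⟨hp, hnd⟩ := hFPR k G d hd hG hsq
  constructor
  · intro hb
    obtain ⟨r, h, e⟩ := key0 hd0 hG0 b
    rw [hb, sub_zero, gF, ← map_pow, ← map_mul] at e
    have e2 := IsFractionRing.injective (A2 k) (F2 k) e
    have h3 : fA G ∣ gA G ^ r * b := ⟨h, e2⟩
    exact (hp.dvd_or_dvd h3).resolve_left fun h4 => hnd (hp.dvd_of_dvd_pow h4)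
  · rintro ⟨c, rfl⟩
    rw [map_mul, bm_f0 hd0 hG hG0, zero_mul]

end Pool.Agent.H18.ND
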