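import Pool.Agent.H84.ND.Targets2
import Pool.Agent.H78.SM.BAS

/-!
# BRN: the two branches at a node (MP_70ba79_ag)
-/

set_option autoImplicit false

namespace Pool.Agent.H18.ND

open MvPolynomial SC Pool.Agent.H27.LV Pool.Agent.H84.SM Pool.Agent.H78.SM.S
open Pool.Agent.H84.ND
open Pool.Agent.H92.OD (HS cf sg uu Lat geO IsO DF DD cf_mul_low cf_add geO_add geO_mul cf_sg
  sg_mul_sg sg_zero_one algebraMap_HS cf_sum hs_ext geO_sg DF_uu exists_IsO)

namespace R

/-- constant term and the rest -/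
theorem split {k : Type} [Field k] (g : MvPolynomial (Fin 2) k) :
    ∃ p q : MvPolynomial (Fin 2) k, g = C (eval ![0, 0] g) + X 0 * p + X 1 * q := by
  induction g using MvPolynomial.induction_on with
  | C a => exact ⟨0, 0, by simp⟩
  | add g h hg hh =>
    obtain ⟨p, q, e⟩ := hg
    obtain ⟨p', q', e'⟩ := hh
    refine ⟨p + p', q + q', ?_⟩
    rw [map_add, map_add]
    linear_combination e + e'
  | mul_X P s _ =>
    fin_cases s
    · refine ⟨P, 0, ?_⟩
      simp [mul_comm]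
    · refine ⟨0, P, ?_⟩
      simp [mul_comm]

/-- the strict transform -/
theorem strict {k : Type} [Field k] (g : MvPolynomial (Fin 2) k) (h0 : eval ![0, 0] g = 0)
    (h1 : eval ![0, 0] (pderiv 0 g) = 0) (h2 : eval ![0, 0] (pderiv 1 g) = 0) :
    ∃ (a0 b0 c0 : k) (R : MvPolynomial (Fin 2) k),
      eval ![0, 0] (pderiv 0 (pderiv 0 g)) = 2 * a0 ∧
      eval ![0, 0] (pderiv 0 (pderiv 1 g)) = b0 ∧
      eval ![0, 0] (pderiv 1 (pderiv 1 g)) = 2 * c0 ∧
      ∀ (L : Type) [CommRing L] [Algebra k L] (x t : L), aeval ![x, x * t] g =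
        x ^ 2 * aeval ![x, t] (C a0 + C b0 * X 1 + C c0 * X 1 ^ 2 + X 0 * R) := by
  obtain ⟨p, q, e⟩ := split g
  rw [h0, C_0, zero_add] at e
  obtain ⟨p1, p2, ep⟩ := split p
  obtain ⟨q1, q2, eq⟩ := split q
  have ep0 : eval ![0, 0] p = 0 := by
    have := h1
    rw [e] at this
    simpa [Derivation.leibniz, pderiv_X] using this
  have eq0 : eval ![0, 0] q = 0 := by
    have := h2
    rw [e] at this
    simpa [Derivation.leibniz, pderiv_X] using this
  rw [ep0, C_0, zero_add] at ep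
  rw [eq0, C_0, zero_add] at eq
  obtain ⟨a1, a2, ea⟩ := split p1
  obtain ⟨b1, b2, eb⟩ := split (p2 + q1)
  obtain ⟨c1, c2, ec⟩ := split q2
  have eg : g = X 0 ^ 2 * p1 + X 0 * X 1 * (p2 + q1) + X 1 ^ 2 * q2 := by
    rw [e, ep, eq]
    ring
  have hc : ∀ (L : Type) [CommRing L] [Algebra k L] (x t : L) (P : MvPolynomial (Fin 2) k),
      aeval ![x, t] (aeval ![X 0, X 0 * X 1] P : MvPolynomial (Fin 2) k) =
        aeval ![x, x * t] P := by
    intro L _ _ x t P
    have : (aeval ![x, t] : MvPolynomial (Fin 2) k →ₐ[k] L).comp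
        (aeval ![X 0, X 0 * X 1]) = aeval ![x, x * t] := by
      ext i
      fin_cases i <;> simp
    exact congrArg (fun f : MvPolynomial (Fin 2) k →ₐ[k] L => f P) this
  refine ⟨eval ![0, 0] p1, eval ![0, 0] (p2 + q1), eval ![0, 0] q2,
    (aeval ![X 0, X 0 * X 1] a1 + X 1 * aeval ![X 0, X 0 * X 1] a2) +
    X 1 * (aeval ![X 0, X 0 * X 1] b1 + X 1 * aeval ![X 0, X 0 * X 1] b2) +
    X 1 ^ 2 * (aeval ![X 0, X 0 * X 1] c1 + X 1 * aeval ![X 0, X 0 * X 1] c2), ?_, ?_, ?_, ?_⟩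
  · rw [eg]
    simp [Derivation.leibniz, pderiv_X, pow_two]
    ring
  · rw [eg]
    simp [Derivation.leibniz, pderiv_X, pow_two]
  · rw [eg]
    simp [Derivation.leibniz, pderiv_X, pow_two]
    ring
  · intro L _ _ x t
    have e1 := congrArg (aeval ![x, x * t]) eg
    have e2 := congrArg (aeval ![x, x * t]) ea
    have e3 := congrArg (aeval ![x, x * t]) eb
    have e4 := congrArg (aeval ![x, x * t]) ec
    simp only [map_add, map_mul, map_pow, aeval_X, algHom_C, hc, Matrix.cons_val_zero,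
      Matrix.cons_val_one] at e1 e2 e3 e4 ⊢
    rw [e1]
    linear_combination x ^ 2 * e2 + x ^ 2 * t * e3 + x ^ 2 * t ^ 2 * e4

/-- one branch -/
theorem branch {k : Type} [Field k] [CharZero k] (hIFT : T_IFT) (a0 b0 c0 c : k)
    (R : MvPolynomial (Fin 2) k) (hv : a0 + b0 * c + c0 * c ^ 2 = 0) (hd : b0 + 2 * c0 * c ≠ 0) :
    ∃ ψ : HS k, Lat 1 ψ ∧ geO 1 ψ ∧
      aeval ![uu k, algebraMap k (HS k) c + ψ]
        (C a0 + C b0 * X 1 + C c0 * X 1 ^ 2 + X 0 * R) = 0 ∧
      ∀ (U : HS k) (μ : ℚ), 0 < μ → IsO U μ →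
        IsO (aeval ![uu k, algebraMap k (HS k) c + ψ + U]
          (C a0 + C b0 * X 1 + C c0 * X 1 ^ 2 + X 0 * R)) μ := by
  set g1 : MvPolynomial (Fin 2) k := C a0 + C b0 * X 1 + C c0 * X 1 ^ 2 + X 0 * R with hg1
  set h : MvPolynomial (Fin 2) k := aeval ![X 0, C c + X 1] g1 with hh
  have hc : ∀ (L : Type) [CommRing L] [Algebra k L] (x t : L),
      aeval ![x, t] h = aeval ![x, algebraMap k L c + t] g1 := by
    intro L _ _ x t
    have : (aeval ![x, t] : MvPolynomial (Fin 2) k →ₐ[k] L).comp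
        (aeval ![X 0, C c + X 1]) = aeval ![x, algebraMap k L c + t] := by
      ext i
      fin_cases i <;> simp [algHom_C]
    exact congrArg (fun f : MvPolynomial (Fin 2) k →ₐ[k] L => f g1) this
  have h0 : eval ![0, 0] h = 0 := by
    have := hc k 0 0
    rw [ae, ae] at this
    rw [this, hg1]
    simp
    linear_combination hv
  have hd' : eval ![0, 0] (pderiv 1 h) ≠ 0 := by
    have e1 : h = C a0 + C b0 * (C c + X 1) + C c0 * (C c + X 1) ^ 2 +
        X 0 * aeval ![X 0, C c + X 1] R := by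
      rw [hh, hg1]
      simp [algHom_C, algebraMap_eq]
    have e2 : eval ![0, 0] (pderiv 1 h) = b0 + 2 * c0 * c := by
      rw [e1]
      simp [Derivation.leibniz, pderiv_X, pow_two]
      ring
    rw [e2]
    exact hd
  obtain ⟨ψ, hψ1, hψ2, hψ3, hψ4⟩ := hIFT k h h0 hd'
  refine ⟨ψ, hψ1, hψ2, ?_, ?_⟩
  · rw [← hc]
    exact hψ3
  · intro U μ hμ hU
    have := hψ4 U μ hμ hU
    rw [hc, ← add_assoc] at this
    exact this

theorem isO_sg {k : Type} [Field k] (r : ℚ) : IsO (sg r (1 : k)) r :=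
  ⟨by rw [cf_sg, if_pos rfl]; exact one_ne_zero, geO_sg r 1⟩

theorem geO_cst {k : Type} [Field k] (c : k) : geO 0 (algebraMap k (HS k) c) := by
  rw [algebraMap_HS]
  exact geO_sg 0 _

end R

open R

theorem pf_BRN (hIFT : Pool.Agent.H84.SM.T_IFT) : Pool.Agent.H84.ND.T_BRN := by
  intro k _ _ _ g h0 h1 h2 h3 h4
  obtain ⟨a0, b0, c0, R, ea, eb, ec, hg⟩ := strict g h0 h1 h2
  have hc0 : c0 ≠ 0 := by
    intro h
    apply h3
    rw [ec, h, mul_zero]
  have hdisc : b0 ^ 2 - 4 * a0 * c0 ≠ 0 := by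
    intro h
    apply h4
    rw [ea, eb, ec]
    linear_combination - h
  obtain ⟨δ, hδ⟩ := IsAlgClosed.exists_pow_nat_eq (b0 ^ 2 - 4 * a0 * c0) (n := 2) (by norm_num)
  have hδ0 : δ ≠ 0 := by
    intro h
    apply hdisc
    rw [← hδ, h]
    ring
  set c1 : k := (-b0 + δ) / (2 * c0) with hc1
  set c2 : k := (-b0 - δ) / (2 * c0) with hc2
  have h2c : (2 * c0 : k) ≠ 0 := mul_ne_zero two_ne_zero hc0
  have e1 : 2 * c0 * c1 = -b0 + δ := by
    rw [hc1]
    field_simp
  have e2 : 2 * c0 * c2 = -b0 - δ := by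
    rw [hc2]
    field_simp
  have hv1 : a0 + b0 * c1 + c0 * c1 ^ 2 = 0 := by
    apply mul_left_cancel₀ (mul_ne_zero (two_ne_zero (α := k)) h2c)
    linear_combination (2 * b0 + 2 * c0 * c1 - b0 + δ) * e1 + hδ
  have hv2 : a0 + b0 * c2 + c0 * c2 ^ 2 = 0 := by
    apply mul_left_cancel₀ (mul_ne_zero (two_ne_zero (α := k)) h2c)
    linear_combination (2 * b0 + 2 * c0 * c2 - b0 - δ) * e2 + hδ
  have hd1 : b0 + 2 * c0 * c1 ≠ 0 := by
    rw [e1]
    intro h
    apply hδ0
    linear_combination h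
  have hd2 : b0 + 2 * c0 * c2 ≠ 0 := by
    rw [e2]
    intro h
    apply hδ0
    linear_combination - h
  have h12 : c1 - c2 ≠ 0 := by
    intro h
    apply hδ0
    apply mul_left_cancel₀ (two_ne_zero (α := k))
    linear_combination 2 * c0 * h - e1 + e2
  have hfac : ∀ τ : k, a0 + b0 * τ + c0 * τ ^ 2 = c0 * ((τ - c1) * (τ - c2)) := by
    intro τ
    have hs : c0 * (c1 + c2) = -b0 := by
      apply mul_left_cancel₀ (two_ne_zero (α := k))
      linear_combination e1 + e2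
    linear_combination (τ - c1) * hs + hv1
  obtain ⟨ψ1, l1, o1, z1, w1⟩ := branch hIFT a0 b0 c0 c1 R hv1 hd1
  obtain ⟨ψ2, l2, o2, z2, w2⟩ := branch hIFT a0 b0 c0 c2 R hv2 hd2
  set g1 : MvPolynomial (Fin 2) k := C a0 + C b0 * X 1 + C c0 * X 1 ^ 2 + X 0 * R with hg1
  have hlu : Lat 1 (uu k) := by
    have := lat_sg (k := k) 1 1
    rwa [Int.cast_one] at this
  have hou : IsO (uu k) 1 := isO_sg 1
  have hcu : cf (uu k) 0 = 0 := hou.2 0 (by norm_num)
  have hui : sg (-1) (1 : k) * uu k = 1 := by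
    show sg (-1) (1 : k) * sg 1 1 = 1
    rw [sg_mul_sg]
    norm_num
    exact sg_zero_one
  have hgen : ∀ (c : k) (ψ : HS k), geO 1 ψ →
      geO 1 (uu k * (algebraMap k (HS k) c + ψ)) ∧
      cf (uu k * (algebraMap k (HS k) c + ψ)) 1 = c := by
    intro c ψ hψ
    have h := cf_mul_low hou.2 (geO_add (geO_cst c)
      (Pool.Agent.H92.OD.geO_mono hψ (by norm_num : (0 : ℚ) ≤ 1)))
    rw [add_zero] at h
    refine ⟨h.1, ?_⟩
    rw [h.2, cf_add, cf_const, hψ 0 (by norm_num)]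
    have : cf (uu k) 1 = 1 := by
      show cf (sg 1 (1 : k)) 1 = 1
      rw [cf_sg, if_pos rfl]
    rw [this]
    ring
  obtain ⟨p1, q1⟩ := hgen c1 ψ1 o1
  obtain ⟨p2, q2⟩ := hgen c2 ψ2 o2
  set φ1 : HS k := uu k * (algebraMap k (HS k) c1 + ψ1) with hφ1
  set φ2 : HS k := uu k * (algebraMap k (HS k) c2 + ψ2) with hφ2
  refine ⟨φ1, φ2, lat_mul hlu (lat_add (lat_const c1) l1), lat_mul hlu (lat_add (lat_const c2) l2),
    p1, p2, ⟨?_, Pool.Agent.H92.OD.geO_sub p1 p2⟩, ?_, ?_, ?_⟩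
  · rw [Pool.Agent.H92.OD.cf_sub, q1, q2]
    exact h12
  · rw [hφ1, hg, z1, mul_zero]
  · rw [hφ2, hg, z2, mul_zero]
  · intro y μ1 μ2 hy hy1 hy2
    set tt : HS k := sg (-1) 1 * y with htt
    have hytt : y = uu k * tt := by
      rw [htt, ← mul_assoc, mul_comm (uu k), hui, one_mul]
    have h21 : IsO (uu k ^ 2) 2 := by
      have := isO_sg (k := k) 2
      rw [Pool.Agent.H92.OD.uu_pow]
      exact_mod_cast this
    have hge : ∀ (φ : HS k) (μ : ℚ), geO 1 φ → IsO (y - φ) μ → 1 ≤ μ := by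
      intro φ μ hφ hμ
      by_contra hlt
      exact hμ.1 (Pool.Agent.H92.OD.geO_sub hy hφ μ (not_le.mp hlt))
    have hm1 := hge φ1 μ1 p1 hy1
    have hm2 := hge φ2 μ2 p2 hy2
    have hkey : ∀ (c : k) (ψ : HS k) (μ : ℚ), 1 < μ →
        IsO (y - uu k * (algebraMap k (HS k) c + ψ)) μ →
        (∀ (U : HS k) (μ : ℚ), 0 < μ → IsO U μ →
          IsO (aeval ![uu k, algebraMap k (HS k) c + ψ + U] g1) μ) →
        IsO (aeval ![uu k, y] g) (μ + 1) := by
      intro c ψ μ hμ hyμ hw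
      have hU := (isO_sg (k := k) (-1)).mul hyμ
      have e5 : sg (-1) (1 : k) * (y - uu k * (algebraMap k (HS k) c + ψ)) =
          tt - (algebraMap k (HS k) c + ψ) := by
        rw [mul_sub, ← mul_assoc, hui, one_mul]
      rw [e5] at hU
      have h5 := hw _ _ (by linarith) hU
      rw [add_sub_cancel] at h5
      have h6 := h21.mul h5
      rw [hytt, hg]
      have e6 : μ + 1 = 2 + (-1 + μ) := by ring
      rw [e6]
      exact h6
    have hlt : ∀ (φ : HS k) (μ : ℚ), 1 < μ → IsO (y - φ) μ → cf y 1 = cf φ 1 := by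
      intro φ μ hμ hyμ
      have := hyμ.2 1 hμ
      rw [Pool.Agent.H92.OD.cf_sub] at this
      exact sub_eq_zero.mp this
    have heq : ∀ (φ : HS k) (μ : ℚ), μ = 1 → IsO (y - φ) μ → cf y 1 ≠ cf φ 1 := by
      intro φ μ hμ hyμ h
      apply hyμ.1
      rw [hμ, Pool.Agent.H92.OD.cf_sub, h, sub_self]
    rcases hm1.lt_or_eq with hm1' | hm1'
    · have h7 := hlt φ1 μ1 hm1' hy1
      have h8 : μ2 = 1 := by
        by_contra hne
        have h9 := hlt φ2 μ2 (lt_of_le_of_ne hm2 (Ne.symm hne)) hy2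
        apply h12
        rw [← q1, ← q2, ← h7, ← h9, sub_self]
      rw [h8]
      exact hkey c1 ψ1 μ1 hm1' hy1 w1
    · rcases hm2.lt_or_eq with hm2' | hm2'
      · rw [← hm1', add_comm]
        exact hkey c2 ψ2 μ2 hm2' hy2 w2
      · have h7 := heq φ1 μ1 hm1'.symm hy1
        have h8 := heq φ2 μ2 hm2'.symm hy2
        rw [q1] at h7
        rw [q2] at h8
        have htt0 := cf_mul_low (geO_sg (-1) (1 : k)) hy
        rw [neg_add_cancel, cf_sg, if_pos rfl, one_mul] at htt0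
        have hlow := low_aeval (y := ![uu k, tt]) (by
          intro i
          fin_cases i
          · exact Pool.Agent.H92.OD.geO_mono hou.2 (by norm_num)
          · exact htt0.1) g1
        have h9 : (fun i => cf (![uu k, tt] i) 0) = ![0, cf y 1] := by
          funext i
          fin_cases i
          · exact hcu
          · exact htt0.2
        rw [h9] at hlow
        have h10 : eval ![0, cf y 1] g1 = c0 * ((cf y 1 - c1) * (cf y 1 - c2)) := by
          rw [← hfac, hg1]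
          simp
        have h11 : IsO (aeval ![uu k, tt] g1) 0 := by
          refine ⟨?_, hlow.1⟩
          rw [hlow.2, h10]
          exact mul_ne_zero hc0 (mul_ne_zero (sub_ne_zero.mpr h7) (sub_ne_zero.mpr h8))
        have h12' := h21.mul h11
        rw [hytt, hg, ← hm1', ← hm2']
        have e7 : (1 : ℚ) + 1 = 2 + 0 := by norm_num
        rw [e7]
        exact h12'

end Pool.Agent.H18.ND
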