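import Pool.Agent.H84.ND.Targets4
import Pool.Agent.H30.AX.RP4

/-!
# FCO: curves in an affine variety with multiplicities along the inverse image of the curve
(MP_70ba79_ag)
-/

set_option autoImplicit false

namespace Pool.Agent.H18.ND

open MvPolynomial SC Pool.Agent.H27.LV Pool.Agent.H84.SM Pool.Agent.H84.ND
open Pool.Agent.H30.AX

namespace F

/-- a product of high powers of ideals is contained in a power of its radical -/
theorem prod_le {R : Type} [CommRing R] {r : ℕ} (J : Fin r → Ideal R) (ε : Fin r → ℕ) (m : ℕ)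
    (h : ∀ a, m ≤ ε a) (P : Ideal R) :
    (∏ a, J a ^ ε a) ⊔ P ≤ ((∏ a, J a ^ ε a) ⊔ P).radical ^ m ⊔ P := by
  have h1 : ∏ a, J a ^ ε a ≤ (∏ a, J a) ^ m := by
    rw [← Finset.prod_pow]
    exact Finset.prod_le_prod' fun a _ => Ideal.pow_le_pow_right (h a)
  have h2 : ∏ a, J a ≤ ((∏ a, J a ^ ε a) ⊔ P).radical := by
    intro x hx
    refine ⟨∑ a, ε a, Ideal.mem_sup_left ?_⟩
    have h3 : x ^ (∑ a, ε a) ∈ (∏ a, J a) ^ (∑ a, ε a) := Ideal.pow_mem_pow hx _
    rw [← Finset.prod_pow] at h3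
    have h4 : ∏ a, J a ^ (∑ a, ε a) ≤ ∏ a, J a ^ ε a :=
      Finset.prod_le_prod' fun a _ => Ideal.pow_le_pow_right
        (Finset.single_le_sum (f := ε) (fun _ _ => Nat.zero_le _) (Finset.mem_univ a))
    exact h4 h3
  exact sup_le ((h1.trans (Ideal.pow_right_mono h2 m)).trans le_sup_left) le_sup_right

end F

open F

theorem pf_FCO : Pool.Agent.H84.ND.T_FCO := by
  classical
  intro k K _ _ _ _ _ G d m hG σ P φ r J ε hε hunit S z hPz hreg Z hZ hGz j0 hZ0'
  have hcomp : ∀ g : MvPolynomial (Fin 3) k, aeval z (aeval φ g) = aeval Z g := fun g => by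
    have h : ((aeval z : MvPolynomial σ k →ₐ[k] K).comp (aeval φ)) = aeval Z := by
      refine MvPolynomial.algHom_ext fun i => ?_
      simp [hZ]
    rw [← h]
    rfl
  have hinv : ∀ N : ℕ, ((Z j0)⁻¹) ^ N ≠ 0 := fun N => pow_ne_zero _ (inv_ne_zero hZ0')
  obtain ⟨z', hz'⟩ : ∃ z' : Fin 3 → K, z' = fun j => (Z j0)⁻¹ * Z j := ⟨_, rfl⟩
  rw [← hz']
  have hform : ∀ (g : MvPolynomial (Fin 3) k) (N : ℕ), g.IsHomogeneous N →
      aeval z' g = ((Z j0)⁻¹) ^ N * aeval Z g := fun g N hg => by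
    rw [hz']
    exact Pool.Agent.H84.SM.aeval_smul_hom g N hg _ _
  have hone : z' j0 = 1 := by
    rw [hz']
    exact inv_mul_cancel₀ hZ0'
  refine ⟨⟨j0, hone⟩, ?_, ?_⟩
  · rw [hform G d hG]
    exact mul_ne_zero (hinv _) hGz
  intro v hv
  have hzv := hreg v hv
  obtain ⟨j1, hj1, hj1'⟩ := Finset.exists_min_image
    (Finset.univ.filter fun j => Z j ≠ 0) (fun j => v.ord (Z j))
    ⟨j0, Finset.mem_filter.2 ⟨Finset.mem_univ _, hZ0'⟩⟩
  have hj1 : Z j1 ≠ 0 := (Finset.mem_filter.1 hj1).2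
  have hle : ∀ j, ge v (v.ord (Z j1)) (Z j) := by
    intro j
    by_cases h0 : Z j = 0
    · exact Or.inl h0
    · exact Or.inr (hj1' j (Finset.mem_filter.2 ⟨Finset.mem_univ _, h0⟩))
  have hord : ∀ j, Z j ≠ 0 → v.ord (z' j) = -(v.ord (Z j0)) + v.ord (Z j) := by
    intro j hj
    rw [hz']
    change v.ord ((Z j0)⁻¹ * Z j) = _
    rw [v.ord_mul' (inv_ne_zero hZ0') hj, v.ord_inv]
  have hpole : (poleOrder v z' : ℤ) = v.ord (Z j0) - v.ord (Z j1) := by
    have h0 := (hle j0).resolve_left hZ0'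
    have hub : poleOrder v z' ≤ (v.ord (Z j0) - v.ord (Z j1)).toNat := by
      unfold poleOrder
      refine Finset.sup_le fun j _ => ?_
      by_cases hj : Z j = 0
      · have h1 : z' j = 0 := by rw [hz']; simp [hj]
        rw [h1, v.ord_zero]
        simp
      · have h1 := hord j hj
        have h2 := (hle j).resolve_left hj
        omega
    have hlb : (-(v.ord (z' j1))).toNat ≤ poleOrder v z' :=
      Finset.le_sup (f := fun i => (-(v.ord (z' i))).toNat) (Finset.mem_univ j1)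
    have h3 := hord j1 hj1
    omega
  have hPD : PullDiv m d P φ (aeval φ G) := by
    refine ⟨(∏ a, J a ^ ε a) ⊔ P, le_sup_right, ?_, prod_le J ε m hε P⟩
    rw [hunit, Ideal.mul_sup, sup_assoc, sup_eq_right.2 (Ideal.mul_le_right (I := Ideal.span (Set.range φ) ^ d) (J := P))]
  have hpo := pull_ord v m d P φ (aeval φ G) z hPD hzv hPz (by rw [hcomp]; exact hGz)
    (v.ord (Z j1)) (fun j => by rw [← hZ]; exact hle j) j1 (by rw [← hZ]; exact hj1)
    (by rw [← hZ])
  rw [hcomp] at hpo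
  rw [hform G d hG, v.ord_mul' (hinv _) hGz, v.ord_pow, v.ord_inv, hpole]
  rcases hpo with h | h
  · left
    have h3 : v.ord (aeval Z G) = (d : ℤ) * v.ord (Z j1) := by linarith
    rw [h3]
    ring
  · right
    have h4 : (m : ℤ) - d * (v.ord (Z j0) - v.ord (Z j1)) =
        (d : ℤ) * -v.ord (Z j0) + (m + d * v.ord (Z j1)) := by ring
    rw [h4]
    linarith

end Pool.Agent.H18.ND
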